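import Pool.Agent.Y174.SD.G14

/-!
MP_c2a5fc_ag, Q1: abundance for projective varieties of any Kodaira dimension for which the symmetric
differentials of some degree have no common zeros over a general point.
-/

set_option autoImplicit false

open Pool.Agent.W619.TW Pool.Agent.W619.Y Pool.Agent.Y174

namespace Pool.Agent.Results.MP_c2a5fc_ag.BasePointFreeSymDifferentials

/-- Let `V → W` be an algebraic fibre space, `V` and `W` projective varieties with function fields `K`
and `L`, `dim W = d`, `dim V = d + (r + 1)`, for instance the Iitaka fibration of `V`. Let `F` be the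
function field of the geometric generic fibre, over the algebraic closure `Λ` of `L`. If the regular
symmetric differentials of degree `m` on `V` have no common zeros at the geometric generic point,
that is, the line bundle `O (m)` on the projectivized tangent bundle is generated by its global
sections over a general point of `V`, then so do those of the geometric generic fibre. If this holds
for the geometric generic fibre and its Kodaira dimension is at most `0`, then it has a finite Galois
cover, with function field `M`, which is of maximal Albanese dimension and of Kodaira dimension `0`,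
so birational to an abelian variety (Kawamata), and `ν (V) ≤ dim W + ν (M)`. So
`ν (V) ≤ dim W`, which is `κ (V)` for the Iitaka fibration. -/
theorem result {L K Λ F : Type} [Field L] [Field K] [Field Λ] [Field F]
    -- the function fields of `W` and `V`
    [Algebra ℂ L] [Algebra ℂ K] [Algebra L K] [IsScalarTower ℂ L K]
    [Algebra.EssFiniteType ℂ L] [Algebra.EssFiniteType ℂ K] {d r m : ℕ} (hm : 1 ≤ m)
    (hW : Algebra.trdeg ℂ L = d) (hV : Algebra.trdeg ℂ K = (d + (r + 1) : ℕ))
    (hLK : ∀ x : K, IsAlgebraic L x → x ∈ Set.range (algebraMap L K))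
    -- the geometric generic fibre
    [Algebra L Λ] [IsAlgClosure L Λ] [Algebra Λ F] [Algebra K F] [Algebra L F]
    [IsScalarTower L Λ F] [IsScalarTower L K F] [Algebra ℂ Λ] [Algebra ℂ F]
    [IsScalarTower ℂ L Λ] [IsScalarTower ℂ Λ F] [IsScalarTower ℂ K F]
    (hF : IntermediateField.adjoin Λ (Set.range (algebraMap K F)) = ⊤) :
    (NoZero ℂ K (d + (r + 1)) m → NoZero Λ F (r + 1) m) ∧
    (¬ KodTr Λ F (r + 1) 1 → NoZero Λ F (r + 1) m →
      ∃ M : IntermediateField F (AlgebraicClosure F), FiniteDimensional F M ∧ IsGalois F M ∧
        MaxAlb Λ M (r + 1) ∧ KodTr Λ F (r + 1) 0 ∧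
        (∀ a, KodTr Λ F (r + 1) a ↔ KodTr Λ M (r + 1) a) ∧
        ∀ h, NumLe Λ M (r + 1) (fun _ => False) h →
          NumLe Λ F (r + 1) (fun _ => False) h ∧
          NumLe ℂ K (d + (r + 1)) (fun _ => False) (d + h)) := by
  have h1 : IsAlgClosed Λ := IsAlgClosure.isAlgClosed L
  have h2 : Algebra.IsAlgebraic L Λ := IsAlgClosure.isAlgebraic
  exact ⟨fun h => SD.noZero_fib ‹Algebra.EssFiniteType ℂ K› hm hW hV hF h,
    fun hκ h => SD.main_sd ‹Algebra.EssFiniteType ℂ L› ‹Algebra.EssFiniteType ℂ K› hW hV hLK hF
      hm hκ h⟩

end Pool.Agent.Results.MP_c2a5fc_ag.BasePointFreeSymDifferentials
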