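import Pool.Agent.Y169.CH.Top

/-!
# Abundance for abelian covers of products of projective spaces branched along smooth hypersurfaces

Let `F i` be a form of degree `d i` in `n i + 1` variables whose zero set in the projective
`n i`-space is a smooth hypersurface, and let `H i` be the cyclic hypersurface `w ^ (d i) = F i` in
the projective `(n i + 1)`-space. Let `X` be a projective manifold which is birational to a quotient
`(H 1 × ... × H r) / G`, where `G` is any group of diagonal automorphisms
`w i ↦ ζ i * w i`, `ζ i ^ (d i) = 1`. Equivalently, the function field `K` of `X` is generated by the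
affine coordinates `x i j / x i 0` of the product of the projective `n i`-spaces and by roots `z j`,
`z j ^ (m j) = ∏ i, (F i (x i) / x i 0 ^ (d i)) ^ (a j i)`, where `m j` divides `a j i * d i`: the
abelian covers of the product of the projective spaces which are branched along the hypersurfaces
`F i = 0` of the factors. (For `n i = 1` these are finite sets of points, and `H i` is a plane curve.)

The vectors `v ≠ 0` of nonnegative integers with `m j ∣ ∑ i, a j i * v i` for all `j` are the
`Admissible` ones; they are the multiplicities of the hypersurfaces along the divisors over `X`. The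
theorem: `K_X` is pseudo-effective if and only if `κ (X) ≥ 0`, if and only if
`∑ i, (1 - (n i + 1) / d i) * v i ≥ 1` for all admissible `v`. In this case
`κ (X) = ν (X) = ∑ i ∈ I, n i`, where `I` is the set of those `i` such that `v i = 0` for all
admissible `v` with equality.

The quotients have quotient singularities, in general not canonical ones, and the canonical class of
`X` is in general not the pullback of the canonical class of the quotient.

The Kodaira and the numerical dimension are given by the sections of `m K_X` and of `m K_X + A`: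
functions of `N = dim X` rational vector fields, with a condition at all divisorial places of `K`, so
that they are the sections on every smooth projective model of `K`.
-/

set_option autoImplicit false

open FF MvPolynomial Pool.Agent.W602.GT

namespace Pool.Agent.Results.MP_c2a5fc_ag.HypersurfaceQuotients

/-- The form `F` has no singular zeros: its partial derivatives have no common zero but `0`. -/
def Smooth {n : ℕ} (F : MvPolynomial (Fin (n + 1)) ℂ) : Prop :=
  ∀ x : Fin (n + 1) → ℂ, x ≠ 0 → ∃ l, eval x (pderiv l F) ≠ 0

/-- The affine coordinates of the product of the projective spaces. -/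
noncomputable def affine {r : ℕ} {n : Fin r → ℕ} {K : Type} [Field K]
    (x : ∀ i, Fin (n i + 1) → K) (b : (i : Fin r) × Fin (n i)) : K :=
  x b.1 b.2.succ / x b.1 0

section

variable {r R : ℕ}

/-- The multiplicities which satisfy the divisibility conditions. -/
def Admissible (m : Fin R → ℕ) (a : Fin R → Fin r → ℕ) (v : Fin r → ℕ) : Prop :=
  v ≠ 0 ∧ ∀ j, m j ∣ ∑ i, a j i * v i

/-- The weight `∑ i, (1 - (n i + 1) / d i) * v i`. -/
def weight (n d v : Fin r → ℕ) : ℚ := ∑ i, (1 - ((n i : ℚ) + 1) / d i) * v i

end

section sections

/-- `ω` is a section of `m K_X + j A`: a rational section of the `m`-th power of the canonical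
bundle (`IsPluri`: a function of `N` rational vector fields which is multiplied by `det B ^ m` under
a linear substitution `B`) whose order on the vector fields which are regular at `P` is at least `j`
times the order of one of the functions in `S`, for all prime divisors `P` over `X` (all divisorial
places `P` of `K`). Here `A` is the divisor which is generated by the finite set `S` of functions;
`A = 0` if `S = {1}`. -/
def IsSection {K : Type} [Field K] [Algebra ℂ K] (N : ℕ) (S : Finset K) (m j : ℕ)
    (ω : (Fin N → Derivation ℂ K K) → K) : Prop :=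
  IsPluri m ω ∧ ∀ P : Place ℂ K, Divisorial N P → ∀ D : Fin N → Derivation ℂ K K,
    (∀ c, DerReg P (D c)) → ω D = 0 ∨ ∃ s ∈ S, s ≠ 0 ∧ j * P.ord s ≤ P.ord (ω D)

variable (N : ℕ) (K : Type) [Field K] [Algebra ℂ K]

/-- `κ (X) ≥ h`: for some `m > 0` there are sections of `m K_X` whose ratios contain `h`
algebraically independent functions (for `h = 0`: there is a nonzero section). -/
def KodairaGe (h : ℕ) : Prop :=
  ∃ m : ℕ, 0 < m ∧ ∃ ω : Fin (h + 1) → (Fin N → Derivation ℂ K K) → K,
    (∀ b, IsSection N {1} m 1 (ω b)) ∧
    ∃ D, ω 0 D ≠ 0 ∧ AlgebraicIndependent ℂ (fun b : Fin h => ω b.succ D / ω 0 D)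

/-- `ν (X) ≤ h`: for every divisor `A` there is a constant `C` such that
`h⁰ (m K_X + A) ≤ C m ^ h` for all `m ≥ 1`. -/
def NumericalLe (h : ℕ) : Prop :=
  ∀ S : Finset K, ∃ C : ℕ, ∀ m M : ℕ, 1 ≤ m →
    (∃ ω : Fin M → (Fin N → Derivation ℂ K K) → K, LinearIndependent ℂ ω ∧
      ∀ l, IsSection N S m 1 (ω l)) → M ≤ C * m ^ h

/-- `K_X` is pseudo-effective: there is a divisor `A` such that for all `M` a positive multiple of
`M K_X + A` is effective. -/
def Pseudoeffective : Prop :=
  ∃ S : Finset K, ∀ M : ℕ, ∃ j : ℕ, 1 ≤ j ∧ ∃ ω : (Fin N → Derivation ℂ K K) → K, ω ≠ 0 ∧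
    IsSection N S (j * M) j ω

end sections

/-- **Abundance.** Let `X` be a projective manifold birational to an abelian cover of the product of
the projective `n i`-spaces which is branched along smooth hypersurfaces `F i = 0` of the factors
(that is, to a quotient of the product of the cyclic hypersurfaces `w ^ (d i) = F i` by a group of
diagonal automorphisms), and let `K` be the function field of `X`. Then `K_X` is pseudo-effective if
and only if `κ (X) ≥ 0` and if and only if all admissible vectors have weight at least one; in this
case `κ (X) = ν (X) = ∑ i ∈ I, n i`, where `I` is the set of the indices `i` such that `v i = 0` for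
all admissible `v` of weight one. -/
theorem result (r N R : ℕ) (n d : Fin r → ℕ) (hr : 1 ≤ r) (hn : ∀ i, 1 ≤ n i)
    (hd : ∀ i, 1 ≤ d i) (hN : N = ∑ i, n i)
    (F : ∀ i, MvPolynomial (Fin (n i + 1)) ℂ) (hF : ∀ i, (F i).IsHomogeneous (d i))
    (hs : ∀ i, Smooth (F i)) (m : Fin R → ℕ) (hm : ∀ j, 1 ≤ m j) (a : Fin R → Fin r → ℕ)
    (hdiv : ∀ j i, m j ∣ a j i * d i)
    (K : Type) [Field K] [Algebra ℂ K] (x : ∀ i, Fin (n i + 1) → K) (hx0 : ∀ i, x i 0 ≠ 0)
    (hbas : IsTranscendenceBasis ℂ (affine x)) (z : Fin R → K)
    (hz : ∀ j, z j ^ m j = ∏ i, (aeval (x i) (F i) / x i 0 ^ d i) ^ a j i)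
    (hgen : IntermediateField.adjoin ℂ (Set.range (affine x) ∪ Set.range z) = ⊤)
    (I : Finset (Fin r))
    (hI : ∀ i, i ∈ I ↔ ∀ v, Admissible m a v → weight n d v = 1 → v i = 0) :
    (Pseudoeffective N K ↔ ∀ v, Admissible m a v → 1 ≤ weight n d v) ∧
    (KodairaGe N K 0 ↔ ∀ v, Admissible m a v → 1 ≤ weight n d v) ∧
    ((∀ v, Admissible m a v → 1 ≤ weight n d v) →
      KodairaGe N K (∑ i ∈ I, n i) ∧ NumericalLe N K (∑ i ∈ I, n i)) := by
  have hw : ∀ v : Fin r → ℕ, weight n d v = ∑ i, (((d i : ℚ) - n i - 1) / d i) * v i := by
    intro v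
    unfold weight
    refine Finset.sum_congr rfl fun i _ => ?_
    have h1 : (d i : ℚ) ≠ 0 := by
      have := hd i
      exact_mod_cast (by omega : d i ≠ 0)
    congr 1
    field_simp
    ring
  simp only [hw] at hI ⊢
  exact Pool.Agent.Y169.CH.main hr hn hN hd hF hs hx0 hbas hm hdiv hz hgen I hI

end Pool.Agent.Results.MP_c2a5fc_ag.HypersurfaceQuotients
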