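import Pool.Agent.Y173.QM.Main

/-! Kodaira dimension and numerical dimension of quotients of varieties with many closed 1-forms
relative to a base of general type. -/

set_option autoImplicit false
set_option linter.overlappingInstances false

open FF IntermediateField Pool.Agent.W619.TW Pool.Agent.W619.Y Pool.Agent.Y173.QA
  Pool.Agent.Y173.QM

namespace Pool.Agent.Results.MP_c2a5fc_ag.RelativeClosedForms

/-- Let `Z` be a projective manifold of dimension `m + f` with function field `L`, `Z → Y` a
dominant rational map onto a variety of dimension `m ≥ 1` with function field `M`, `G` a finite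
group of birational automorphisms of `Z` (which need not respect `Y`), `V` a `G`-stable space of
closed regular `1`-forms on `Z` which generically generates the relative cotangent bundle of
`Z → Y` (`hgen`), and `X` a projective manifold birational to `Z / G`. Assume the relative condition
of Reid-Tai type. Let `d` be the dimension of the space of rational vector fields on `Z` along the
fibres of `Z → Y` on which all forms in `V` are constant. Then `κ (X) ≥ κ (Y) + f - d` (if
`κ (Y) ≥ 0`); and if these vector fields are regular on some projective model of `Z`, then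
`ν (X) ≤ dim Y + f - d`. So `κ (X) = ν (X) = dim Y + f - d` if `Y` is of general type. -/
theorem result {k L : Type} [Field k] [CharZero k] [IsAlgClosed k] [Field L] [Algebra k L]
    [Algebra.EssFiniteType k L] {m f : ℕ} (hm : 0 < m) (hn : Algebra.trdeg k L = (m + f : ℕ))
    (M : IntermediateField k L) [Algebra.EssFiniteType k M] (hM : Algebra.trdeg k M = m)
    (G : Subgroup (L ≃ₐ[k] L)) [Finite G] (V : Submodule k (Derivation k L L →ₗ[L] L))
    (hreg : ∀ θ ∈ V, IsRegForm (m + f) θ) (hcl : ∀ θ ∈ V, IsClosedForm θ)
    (hstab : ∀ g ∈ G, ∀ θ ∈ V, ∃ θ' ∈ V, IsImage g θ θ')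
    (hgen : ∃ θ : Fin f → Derivation k L L →ₗ[L] L, (∀ i, θ i ∈ V) ∧ IndepOver (m := m) M θ)
    (hRT : ReidTaiOver m f G M V) :
    ∃ b : ℕ, b + Module.finrank k (constFieldsOver M V) = f ∧
      (∀ h, KodTr k M m h → KodTr k (fixedField G) (m + f) (h + b)) ∧
      (IsRegularOnModel (constFieldsOver M V) →
        NumLe k (fixedField G) (m + f) (fun _ => False) (m + b)) := by
  obtain ⟨b, h1, h2, h3⟩ := mainM hn M hM G V hreg hcl hstab hgen hRT
  exact ⟨b, h1, h2, h3 (by omega)⟩

end Pool.Agent.Results.MP_c2a5fc_ag.RelativeClosedForms
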